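import Mathlib

set_option autoImplicit false
open MeasureTheory
open scoped ENNReal

namespace Pool.Agent.W797.CP

noncomputable section

abbrev Es (d : ℕ) := EuclideanSpace ℝ (Fin d)

/-- half-open box with corner `a` and side `s` -/
def box {d : ℕ} (a : Fin d → ℝ) (s : ℝ) : Set (Es d) := {x | ∀ k, a k ≤ x k ∧ x k < a k + s}

theorem box_eq {d : ℕ} (a : Fin d → ℝ) (s : ℝ) :
    box a s = (@WithLp.ofLp 2 (Fin d → ℝ)) ⁻¹' (Set.univ.pi fun k => Set.Ico (a k) (a k + s)) := by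
  ext x
  simp [box, Set.mem_pi]

theorem box_meas {d : ℕ} (a : Fin d → ℝ) (s : ℝ) : MeasurableSet (box a s) := by
  rw [box_eq]
  exact (MeasurableSet.univ_pi fun k => measurableSet_Ico).preimage
    (PiLp.volume_preserving_ofLp (Fin d)).measurable

theorem box_vol {d : ℕ} (a : Fin d → ℝ) (s : ℝ) :
    volume (box a s) = ENNReal.ofReal s ^ d := by
  rw [box_eq, (PiLp.volume_preserving_ofLp (Fin d)).measure_preimage
    (MeasurableSet.univ_pi fun k => measurableSet_Ico).nullMeasurableSet, Real.volume_pi_Ico]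
  simp

theorem box_convex {d : ℕ} (a : Fin d → ℝ) (s : ℝ) : Convex ℝ (box a s) := by
  intro x hx y hy p q hp hq hpq k
  have h1 := hx k
  have h2 := hy k
  simp only [PiLp.add_apply, PiLp.smul_apply, smul_eq_mul]
  have h3 : p * a k + q * a k = a k := by rw [← add_mul, hpq, one_mul]
  have h4 : p * (a k + s) + q * (a k + s) = a k + s := by rw [← add_mul, hpq, one_mul]
  constructor
  · nlinarith [mul_le_mul_of_nonneg_left h1.1 hp, mul_le_mul_of_nonneg_left h2.1 hq]
  · rcases hp.lt_or_eq with hp' | hp'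
    · nlinarith [mul_lt_mul_of_pos_left h1.2 hp', mul_le_mul_of_nonneg_left h2.2.le hq]
    · have hq1 : q = 1 := by linarith
      rw [← hp', hq1]
      simpa using h2.2

theorem box_diam {d : ℕ} (a : Fin d → ℝ) (s : ℝ) {x y : Es d} (hx : x ∈ box a s)
    (hy : y ∈ box a s) : ‖y - x‖ ^ 2 ≤ d * s ^ 2 := by
  rw [EuclideanSpace.norm_sq_eq]
  calc ∑ i, ‖(y - x) i‖ ^ 2 ≤ ∑ i : Fin d, s ^ 2 := by
        refine Finset.sum_le_sum fun i _ => ?_
        rw [Real.norm_eq_abs, sq_abs, PiLp.sub_apply]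
        have h1 := hx i
        have h2 := hy i
        apply sq_le_sq'
        · linarith
        · linarith
    _ = d * s ^ 2 := by simp

theorem jensen_sq (h : ℝ → ℝ) (hc : Continuous h) :
    (∫ t in (0:ℝ)..1, h t) ^ 2 ≤ ∫ t in (0:ℝ)..1, h t ^ 2 := by
  set c := ∫ t in (0:ℝ)..1, h t with hcdef
  have h0 : 0 ≤ ∫ t in (0:ℝ)..1, (h t - c) ^ 2 :=
    intervalIntegral.integral_nonneg (by norm_num) fun t _ => sq_nonneg _
  have h1 : ∫ t in (0:ℝ)..1, (h t - c) ^ 2 =
      (∫ t in (0:ℝ)..1, h t ^ 2) - 2 * c * c + c ^ 2 := by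
    have e : (fun t => (h t - c) ^ 2) = fun t => (h t ^ 2 - 2 * c * h t) + c ^ 2 := by
      funext t
      ring
    rw [e, intervalIntegral.integral_add, intervalIntegral.integral_sub,
      intervalIntegral.integral_const_mul, ← hcdef]
    · simp
    · exact (hc.pow 2).intervalIntegrable _ _
    · exact (continuous_const.mul hc).intervalIntegrable _ _
    · exact ((hc.pow 2).sub (continuous_const.mul hc)).intervalIntegrable _ _
    · exact continuous_const.intervalIntegrable _ _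
  rw [h1] at h0
  nlinarith

/-- the segment estimate -/
theorem seg {d : ℕ} (f : Es d → ℂ) (hf : ContDiff ℝ 1 f) (x y : Es d) :
    ‖f y - f x‖ ^ 2 ≤ ‖y - x‖ ^ 2 * ∫ t in (0:ℝ)..1, ‖fderiv ℝ f (x + t • (y - x))‖ ^ 2 := by
  have hd : Differentiable ℝ f := hf.differentiable one_ne_zero
  have hc : Continuous fun t : ℝ => fderiv ℝ f (x + t • (y - x)) :=
    (hf.continuous_fderiv one_ne_zero).comp (by fun_prop)
  have h1 : f y - f x = ∫ t in (0:ℝ)..1, fderiv ℝ f (x + t • (y - x)) (y - x) := by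
    have h2 : ∀ t ∈ Set.uIcc (0:ℝ) 1, HasDerivAt (fun t : ℝ => f (x + t • (y - x)))
        (fderiv ℝ f (x + t • (y - x)) (y - x)) t := by
      intro t _
      have h3 : HasDerivAt (fun t : ℝ => x + t • (y - x)) (y - x) t := by
        have := ((hasDerivAt_id t).smul_const (y - x)).const_add x
        simpa using this
      exact (hd _).hasFDerivAt.comp_hasDerivAt t h3
    rw [intervalIntegral.integral_eq_sub_of_hasDerivAt h2
      ((hc.clm_apply continuous_const).intervalIntegrable _ _)]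
    simp
  have h4 : ‖f y - f x‖ ≤ ∫ t in (0:ℝ)..1, ‖fderiv ℝ f (x + t • (y - x))‖ * ‖y - x‖ := by
    rw [h1]
    refine (intervalIntegral.norm_integral_le_integral_norm (by norm_num)).trans ?_
    refine intervalIntegral.integral_mono_on (by norm_num) ?_ ?_ ?_
    · exact (hc.clm_apply continuous_const).norm.intervalIntegrable _ _
    · exact (hc.norm.mul continuous_const).intervalIntegrable _ _
    · intro t _
      exact ContinuousLinearMap.le_opNorm _ _
  rw [intervalIntegral.integral_mul_const] at h4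
  calc ‖f y - f x‖ ^ 2 ≤ ((∫ t in (0:ℝ)..1, ‖fderiv ℝ f (x + t • (y - x))‖) * ‖y - x‖) ^ 2 :=
        pow_le_pow_left₀ (norm_nonneg _) h4 2
    _ = ‖y - x‖ ^ 2 * (∫ t in (0:ℝ)..1, ‖fderiv ℝ f (x + t • (y - x))‖) ^ 2 := by ring
    _ ≤ _ := mul_le_mul_of_nonneg_left (jensen_sq _ hc.norm) (sq_nonneg _)

/-- scaling -/
theorem lint_scale {d : ℕ} (G : Es d → ℝ≥0∞) (hG : Measurable G) (r : ℝ) (hr : 0 < r)
    (b : Es d) : ∫⁻ x, G (r • x + b) = ENNReal.ofReal ((r ^ d)⁻¹) * ∫⁻ x, G x := by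
  have h1 : ∫⁻ x, G (r • x + b) = ∫⁻ x, G (x + b) ∂(Measure.map (r • ·) volume) := by
    have hm : Measurable fun x : Es d => G (x + b) := hG.comp (measurable_id.add_const b)
    exact (lintegral_map hm (measurable_const_smul r)).symm
  rw [h1, Measure.map_addHaar_smul volume hr.ne', lintegral_smul_measure,
    lintegral_add_right_eq_self]
  simp only [finrank_euclideanSpace, Fintype.card_fin, smul_eq_mul]
  rw [abs_of_nonneg (inv_nonneg.mpr (pow_nonneg hr.le d))]

theorem lint_box {d : ℕ} (a : Fin d → ℝ) (s : ℝ) (G : Es d → ℝ≥0∞) (hG : Measurable G) (r : ℝ)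
    (hr : 1 / 2 ≤ r) (hr1 : r ≤ 1) (y : Es d) (hy : y ∈ box a s) :
    ∫⁻ x in box a s, G (r • x + (1 - r) • y) ≤ 2 ^ d * ∫⁻ x in box a s, G x := by
  have hr0 : 0 < r := by linarith
  calc ∫⁻ x in box a s, G (r • x + (1 - r) • y)
      ≤ ∫⁻ x, (box a s).indicator G (r • x + (1 - r) • y) := by
        rw [← lintegral_indicator (box_meas a s)]
        refine lintegral_mono fun x => ?_
        by_cases hx : x ∈ box a s
        · rw [Set.indicator_of_mem hx, Set.indicator_of_mem]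
          exact box_convex a s hx hy hr0.le (by linarith) (by ring)
        · rw [Set.indicator_of_notMem hx]
          exact zero_le
    _ = ENNReal.ofReal ((r ^ d)⁻¹) * ∫⁻ x, (box a s).indicator G x :=
        lint_scale _ (hG.indicator (box_meas a s)) r hr0 _
    _ = ENNReal.ofReal ((r ^ d)⁻¹) * ∫⁻ x in box a s, G x := by
        rw [lintegral_indicator (box_meas a s)]
    _ ≤ 2 ^ d * ∫⁻ x in box a s, G x := by
        refine mul_le_mul_left ?_ _
        have h2 : (r ^ d)⁻¹ ≤ (2:ℝ) ^ d := by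
          rw [← inv_pow]
          refine pow_le_pow_left₀ (inv_nonneg.mpr hr0.le) ?_ d
          rw [inv_le_comm₀ hr0 (by norm_num)]
          linarith
        calc ENNReal.ofReal ((r ^ d)⁻¹) ≤ ENNReal.ofReal ((2:ℝ) ^ d) :=
              ENNReal.ofReal_le_ofReal h2
          _ = 2 ^ d := by
              rw [ENNReal.ofReal_pow (by norm_num)]
              norm_num

theorem lint_box' {d : ℕ} (a : Fin d → ℝ) (s : ℝ) (G : Es d → ℝ≥0∞) (hG : Measurable G) (r : ℝ)
    (hr : 1 / 2 ≤ r) (hr1 : r ≤ 1) :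
    ∫⁻ y in box a s, ∫⁻ x in box a s, G (r • x + (1 - r) • y) ≤
      2 ^ d * volume (box a s) * ∫⁻ x in box a s, G x := by
  calc ∫⁻ y in box a s, ∫⁻ x in box a s, G (r • x + (1 - r) • y)
      ≤ ∫⁻ _ in box a s, 2 ^ d * ∫⁻ x in box a s, G x := by
        refine setLIntegral_mono measurable_const fun y hy => ?_
        exact lint_box a s G hG r hr hr1 y hy
    _ = 2 ^ d * volume (box a s) * ∫⁻ x in box a s, G x := by
        rw [setLIntegral_const]
        ring

theorem lint_t {d : ℕ} (a : Fin d → ℝ) (s : ℝ) (G : Es d → ℝ≥0∞) (hG : Measurable G) (t : ℝ)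
    (ht : 0 ≤ t) (ht1 : t ≤ 1) :
    ∫⁻ x in box a s, ∫⁻ y in box a s, G (x + t • (y - x)) ≤
      2 ^ d * volume (box a s) * ∫⁻ x in box a s, G x := by
  rcases le_total (1 / 2) t with h | h
  · have e : ∀ x y : Es d, x + t • (y - x) = t • y + (1 - t) • x := by
      intro x y
      module
    simp only [e]
    exact lint_box' a s G hG t h ht1
  · have e : ∀ x y : Es d, x + t • (y - x) = (1 - t) • x + (1 - (1 - t)) • y := by
      intro x y
      module
    rw [lintegral_lintegral_swap]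
    · simp only [e]
      exact lint_box' a s G hG (1 - t) (by linarith) (by linarith)
    · apply Measurable.aemeasurable
      apply hG.comp
      fun_prop

theorem lint_main {d : ℕ} (a : Fin d → ℝ) (s : ℝ) (G : Es d → ℝ≥0∞) (hG : Measurable G) :
    ∫⁻ x in box a s, ∫⁻ y in box a s, ∫⁻ t in Set.Icc (0:ℝ) 1, G (x + t • (y - x)) ≤
      2 ^ d * volume (box a s) * ∫⁻ x in box a s, G x := by
  have hm : Measurable fun p : (Es d × ℝ) × Es d => G (p.1.1 + p.1.2 • (p.2 - p.1.1)) := by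
    apply hG.comp
    fun_prop
  have h1 : ∀ x : Es d, ∫⁻ y in box a s, ∫⁻ t in Set.Icc (0:ℝ) 1, G (x + t • (y - x)) =
      ∫⁻ t in Set.Icc (0:ℝ) 1, ∫⁻ y in box a s, G (x + t • (y - x)) := by
    intro x
    rw [lintegral_lintegral_swap]
    apply Measurable.aemeasurable
    apply hG.comp
    fun_prop
  simp only [h1]
  rw [lintegral_lintegral_swap]
  · calc ∫⁻ t in Set.Icc (0:ℝ) 1, ∫⁻ x in box a s, ∫⁻ y in box a s, G (x + t • (y - x))
        ≤ ∫⁻ _ in Set.Icc (0:ℝ) 1, 2 ^ d * volume (box a s) * ∫⁻ x in box a s, G x := by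
          refine setLIntegral_mono measurable_const fun t ht => ?_
          exact lint_t a s G hG t ht.1 ht.2
      _ = _ := by
          rw [setLIntegral_const]
          simp
  · apply Measurable.aemeasurable
    exact hm.lintegral_prod_right'

/-- the double integral -/
theorem dbl {d : ℕ} (a : Fin d → ℝ) (s : ℝ) (f : Es d → ℂ) (hf : ContDiff ℝ 1 f) :
    ∫⁻ x in box a s, ∫⁻ y in box a s, ENNReal.ofReal (‖f y - f x‖ ^ 2) ≤
      ENNReal.ofReal (d * s ^ 2) * (2 ^ d * volume (box a s) *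
        ∫⁻ x in box a s, ENNReal.ofReal (‖fderiv ℝ f x‖ ^ 2)) := by
  set G : Es d → ℝ≥0∞ := fun x => ENNReal.ofReal (‖fderiv ℝ f x‖ ^ 2) with hG
  have hcf : Continuous fun x => ‖fderiv ℝ f x‖ ^ 2 :=
    ((hf.continuous_fderiv one_ne_zero).norm).pow 2
  have hGm : Measurable G := hcf.measurable.ennreal_ofReal
  have h1 : ∀ x ∈ box a s, ∀ y ∈ box a s, ENNReal.ofReal (‖f y - f x‖ ^ 2) ≤
      ENNReal.ofReal (d * s ^ 2) * ∫⁻ t in Set.Icc (0:ℝ) 1, G (x + t • (y - x)) := by
    intro x hx y hy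
    have hc : Continuous fun t : ℝ => ‖fderiv ℝ f (x + t • (y - x))‖ ^ 2 :=
      hcf.comp (by fun_prop)
    have h2 : ∫⁻ t in Set.Icc (0:ℝ) 1, G (x + t • (y - x)) =
        ENNReal.ofReal (∫ t in (0:ℝ)..1, ‖fderiv ℝ f (x + t • (y - x))‖ ^ 2) := by
      rw [intervalIntegral.integral_of_le (by norm_num), ← integral_Icc_eq_integral_Ioc,
        ofReal_integral_eq_lintegral_ofReal]
      · exact hc.continuousOn.integrableOn_Icc
      · exact Filter.Eventually.of_forall fun t => sq_nonneg _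
    rw [h2, ← ENNReal.ofReal_mul (by positivity)]
    refine ENNReal.ofReal_le_ofReal ((seg f hf x y).trans ?_)
    refine mul_le_mul_of_nonneg_right (box_diam a s hx hy) ?_
    exact intervalIntegral.integral_nonneg (by norm_num) fun t _ => sq_nonneg _
  calc ∫⁻ x in box a s, ∫⁻ y in box a s, ENNReal.ofReal (‖f y - f x‖ ^ 2)
      ≤ ∫⁻ x in box a s, ∫⁻ y in box a s,
          ENNReal.ofReal (d * s ^ 2) * ∫⁻ t in Set.Icc (0:ℝ) 1, G (x + t • (y - x)) := by
        refine setLIntegral_mono' (box_meas a s) fun x hx => ?_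
        refine setLIntegral_mono' (box_meas a s) fun y hy => ?_
        exact h1 x hx y hy
    _ = ENNReal.ofReal (d * s ^ 2) * ∫⁻ x in box a s, ∫⁻ y in box a s,
          ∫⁻ t in Set.Icc (0:ℝ) 1, G (x + t • (y - x)) := by
        rw [← lintegral_const_mul' _ _ ENNReal.ofReal_ne_top]
        congr 1
        funext x
        rw [← lintegral_const_mul' _ _ ENNReal.ofReal_ne_top]
    _ ≤ _ := mul_le_mul_right (lint_main a s G hGm) _

/-- the variance identity -/
theorem var_id {X : Type} [MeasurableSpace X] (ν : Measure X) [IsFiniteMeasure ν] (f : X → ℂ)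
    (h1 : Integrable f ν) (h2 : Integrable (fun x => ‖f x‖ ^ 2) ν) :
    (∀ x, Integrable (fun y => ‖f y - f x‖ ^ 2) ν) ∧
    Integrable (fun x => ∫ y, ‖f y - f x‖ ^ 2 ∂ν) ν ∧
    ∫ x, ∫ y, ‖f y - f x‖ ^ 2 ∂ν ∂ν =
      2 * ν.real Set.univ * (∫ x, ‖f x‖ ^ 2 ∂ν) - 2 * ‖∫ x, f x ∂ν‖ ^ 2 := by
  have e : ∀ x y, ‖f y - f x‖ ^ 2 =
      ‖f y‖ ^ 2 + ‖f x‖ ^ 2 - 2 * (f y * (starRingEnd ℂ) (f x)).re := by
    intro x y
    simp only [← Complex.normSq_eq_norm_sq]
    exact Complex.normSq_sub _ _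
  have hi : ∀ x, Integrable (fun y => 2 * (f y * (starRingEnd ℂ) (f x)).re) ν := fun x =>
    (h1.mul_const _).re.const_mul 2
  have hi2 : ∀ x, Integrable (fun y => ‖f y‖ ^ 2 + ‖f x‖ ^ 2) ν := fun x =>
    h2.add (integrable_const _)
  have hin : ∀ x, ∫ y, ‖f y - f x‖ ^ 2 ∂ν = (∫ y, ‖f y‖ ^ 2 ∂ν) + ν.real Set.univ * ‖f x‖ ^ 2 -
      2 * ((∫ y, f y ∂ν) * (starRingEnd ℂ) (f x)).re := by
    intro x
    simp only [e]
    rw [integral_sub (hi2 x) (hi x), integral_add h2 (integrable_const _), integral_const,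
      smul_eq_mul, integral_const_mul]
    congr 2
    rw [← integral_mul_const]
    exact integral_re (h1.mul_const _)
  have hk : Integrable (fun x => (∫ y, f y ∂ν) * (starRingEnd ℂ) (f x)) ν := by
    refine Integrable.const_mul ?_ _
    exact Complex.conjCLE.toContinuousLinearMap.integrable_comp h1
  have hj : Integrable (fun x => 2 * ((∫ y, f y ∂ν) * (starRingEnd ℂ) (f x)).re) ν :=
    hk.re.const_mul 2
  have hj2 : Integrable (fun x => (∫ y, ‖f y‖ ^ 2 ∂ν) + ν.real Set.univ * ‖f x‖ ^ 2) ν :=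
    (integrable_const _).add (h2.const_mul _)
  refine ⟨fun x => ?_, ?_, ?_⟩
  · simp only [e]
    exact (hi2 x).sub (hi x)
  · simp only [hin]
    exact hj2.sub hj
  · simp only [hin]
    rw [integral_sub hj2 hj, integral_add (integrable_const _) (h2.const_mul _), integral_const,
      smul_eq_mul, integral_const_mul, integral_const_mul]
    have h5 : ∫ x, ((∫ y, f y ∂ν) * (starRingEnd ℂ) (f x)).re ∂ν = ‖∫ x, f x ∂ν‖ ^ 2 := by
      have h6 : ∫ x, ((∫ y, f y ∂ν) * (starRingEnd ℂ) (f x)).re ∂ν =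
          (∫ x, ((∫ y, f y ∂ν) * (starRingEnd ℂ) (f x)) ∂ν).re := integral_re hk
      rw [h6, integral_const_mul, integral_conj, Complex.mul_conj, Complex.ofReal_re,
        Complex.normSq_eq_norm_sq]
    rw [h5]
    ring

/-- the inequality of Poincare on a box -/
theorem poinc {d : ℕ} (a : Fin d → ℝ) (s : ℝ) (hs : 0 < s) (f : Es d → ℂ) (hf : ContDiff ℝ 1 f)
    (h1 : IntegrableOn f (box a s)) (h2 : IntegrableOn (fun x => ‖f x‖ ^ 2) (box a s))
    (h3 : IntegrableOn (fun x => ‖fderiv ℝ f x‖ ^ 2) (box a s)) :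
    ∫ x in box a s, ‖f x‖ ^ 2 ≤ (s ^ d)⁻¹ * ‖∫ x in box a s, f x‖ ^ 2 +
      d * 2 ^ d * s ^ 2 * ∫ x in box a s, ‖fderiv ℝ f x‖ ^ 2 := by
  have hV : volume (box a s) = ENNReal.ofReal (s ^ d) := by
    rw [box_vol, ENNReal.ofReal_pow hs.le]
  have hsd : 0 < s ^ d := pow_pos hs d
  have hfin : IsFiniteMeasure (volume.restrict (box a s)) := by
    refine ⟨?_⟩
    rw [Measure.restrict_apply_univ, hV]
    exact ENNReal.ofReal_lt_top
  obtain ⟨v1, v2, v3⟩ := var_id (volume.restrict (box a s)) f h1 h2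
  have hr : (volume.restrict (box a s)).real Set.univ = s ^ d := by
    rw [Measure.real, Measure.restrict_apply_univ, hV, ENNReal.toReal_ofReal hsd.le]
  rw [hr] at v3
  have hD := dbl a s f hf
  have e1 : ∫⁻ x in box a s, ∫⁻ y in box a s, ENNReal.ofReal (‖f y - f x‖ ^ 2) =
      ENNReal.ofReal (∫ x in box a s, ∫ y in box a s, ‖f y - f x‖ ^ 2) := by
    rw [ofReal_integral_eq_lintegral_ofReal v2]
    · refine lintegral_congr fun x => ?_
      rw [ofReal_integral_eq_lintegral_ofReal (v1 x)]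
      exact Filter.Eventually.of_forall fun t => sq_nonneg _
    · exact Filter.Eventually.of_forall fun x => integral_nonneg fun t => sq_nonneg _
  have e2 : ∫⁻ x in box a s, ENNReal.ofReal (‖fderiv ℝ f x‖ ^ 2) =
      ENNReal.ofReal (∫ x in box a s, ‖fderiv ℝ f x‖ ^ 2) := by
    rw [ofReal_integral_eq_lintegral_ofReal h3]
    exact Filter.Eventually.of_forall fun x => sq_nonneg _
  have hI : 0 ≤ ∫ x in box a s, ‖fderiv ℝ f x‖ ^ 2 := integral_nonneg fun x => sq_nonneg _
  have e3 : (2 : ℝ≥0∞) ^ d = ENNReal.ofReal ((2:ℝ) ^ d) := by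
    rw [ENNReal.ofReal_pow (by norm_num)]
    norm_num
  rw [e1, e2, hV, e3, ← ENNReal.ofReal_mul (by positivity), ← ENNReal.ofReal_mul (by positivity),
    ← ENNReal.ofReal_mul (by positivity), ENNReal.ofReal_le_ofReal_iff (by positivity), v3] at hD
  have h5 : 2 * s ^ d * (∫ x in box a s, ‖f x‖ ^ 2) ≤ 2 * ‖∫ x in box a s, f x‖ ^ 2 +
      2 * s ^ d * (d * 2 ^ d * s ^ 2 * ∫ x in box a s, ‖fderiv ℝ f x‖ ^ 2) := by
    have h6 : 0 ≤ s ^ d * (d * 2 ^ d * s ^ 2 * ∫ x in box a s, ‖fderiv ℝ f x‖ ^ 2) := by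
      positivity
    nlinarith
  have h7 : 2 * s ^ d * ((s ^ d)⁻¹ * ‖∫ x in box a s, f x‖ ^ 2) =
      2 * ‖∫ x in box a s, f x‖ ^ 2 := by
    field_simp
  refine le_of_mul_le_mul_left ?_ (by positivity : 0 < 2 * s ^ d)
  rw [mul_add, h7]
  exact h5

end

end Pool.Agent.W797.CP
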