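import Pool.Agent.W761.CP.Defs
import Pool.Agent.W797.CP.Box

set_option autoImplicit false
open MeasureTheory
open scoped ENNReal SchwartzMap InnerProductSpace

namespace Pool.Agent.W797.CP
open Pool.Agent.Helper209.CX (Ed L2d)
open Pool.Agent.W761.CP

noncomputable section

/-! ## finite rank projections -/

section abs
variable {ι H : Type} [Fintype ι] [NormedAddCommGroup H] [InnerProductSpace ℂ H]

def QQ (w : ι → H) : H →L[ℂ] H := ∑ i, (innerSL ℂ (w i)).smulRight (w i)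

theorem QQ_apply (w : ι → H) (u : H) : QQ w u = ∑ i, ⟪w i, u⟫_ℂ • w i := by
  simp [QQ]

theorem QQ_sa (w : ι → H) (u v : H) : ⟪QQ w u, v⟫_ℂ = ⟪u, QQ w v⟫_ℂ := by
  rw [QQ_apply, QQ_apply, sum_inner, inner_sum]
  refine Finset.sum_congr rfl fun i _ => ?_
  rw [inner_smul_left, inner_smul_right, inner_conj_symm]
  ring

theorem QQ_inner (w : ι → H) (hw : Orthonormal ℂ w) (u : H) (j : ι) :
    ⟪w j, QQ w u⟫_ℂ = ⟪w j, u⟫_ℂ := by
  classical
  rw [QQ_apply]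
  exact hw.inner_right_fintype (fun i => ⟪w i, u⟫_ℂ) j

theorem QQ_idem (w : ι → H) (hw : Orthonormal ℂ w) (u : H) : QQ w (QQ w u) = QQ w u := by
  rw [QQ_apply w (QQ w u)]
  simp only [QQ_inner w hw]
  rw [← QQ_apply]

theorem QQ_norm (w : ι → H) (hw : Orthonormal ℂ w) (u : H) :
    ‖QQ w u‖ ^ 2 = ∑ i, ‖⟪w i, u⟫_ℂ‖ ^ 2 := by
  have h : ⟪QQ w u, QQ w u⟫_ℂ = ((∑ i, ‖⟪w i, u⟫_ℂ‖ ^ 2 : ℝ) : ℂ) := by
    rw [QQ_sa, QQ_idem w hw, QQ_apply, inner_sum]
    push_cast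
    refine Finset.sum_congr rfl fun i _ => ?_
    rw [inner_smul_right, ← inner_conj_symm u (w i), Complex.mul_conj, Complex.normSq_eq_norm_sq]
    push_cast
    rfl
  rw [← inner_self_eq_norm_sq (𝕜 := ℂ) (QQ w u), h]
  exact Complex.ofReal_re _

theorem QQ_range (w : ι → H) :
    LinearMap.range (QQ w : H →ₗ[ℂ] H) ≤ Submodule.span ℂ (Set.range w) := by
  rintro _ ⟨u, rfl⟩
  change QQ w u ∈ _
  rw [QQ_apply]
  exact Submodule.sum_mem _ fun i _ =>
    Submodule.smul_mem _ _ (Submodule.subset_span (Set.mem_range_self i))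

theorem QQ_fin (w : ι → H) : FiniteDimensional ℂ (LinearMap.range (QQ w : H →ₗ[ℂ] H)) := by
  have : FiniteDimensional ℂ (Submodule.span ℂ (Set.range w)) :=
    FiniteDimensional.span_of_finite ℂ (Set.finite_range w)
  exact Submodule.finiteDimensional_of_le (QQ_range w)

theorem QQ_rank (w : ι → H) :
    Module.finrank ℂ (LinearMap.range (QQ w : H →ₗ[ℂ] H)) ≤ Fintype.card ι := by
  have : FiniteDimensional ℂ (Submodule.span ℂ (Set.range w)) :=
    FiniteDimensional.span_of_finite ℂ (Set.finite_range w)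
  exact (Submodule.finrank_mono (QQ_range w)).trans (finrank_range_le_card w)

end abs

/-! ## the cells -/

def cell (d m : ℕ) (α : Fin d → Fin m) : Set (Ed d) :=
  box (fun k => ((α k : ℕ) : ℝ) / m) (1 / m)

theorem cell_vol (d m : ℕ) (α : Fin d → Fin m) :
    volume (cell d m α) = ENNReal.ofReal (1 / m) ^ d := box_vol _ _

theorem cell_ne (d m : ℕ) (α : Fin d → Fin m) : volume (cell d m α) ≠ ∞ := by
  rw [cell_vol]
  exact ENNReal.pow_ne_top ENNReal.ofReal_ne_top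

theorem cell_meas (d m : ℕ) (α : Fin d → Fin m) : MeasurableSet (cell d m α) := box_meas _ _

theorem cell_real (d m : ℕ) (hm : 1 ≤ m) (α : Fin d → Fin m) :
    volume.real (cell d m α) = ((m : ℝ) ^ d)⁻¹ := by
  rw [Measure.real, cell_vol, ENNReal.toReal_pow, ENNReal.toReal_ofReal (by positivity)]
  rw [one_div, inv_pow]

theorem cell_uniq {d m : ℕ} (hm : 1 ≤ m) {α β : Fin d → Fin m} {x : Ed d} (hα : x ∈ cell d m α)
    (hβ : x ∈ cell d m β) : α = β := by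
  have hm0 : (0:ℝ) < m := by exact_mod_cast hm
  have key : ∀ α β : Fin d → Fin m, x ∈ cell d m α → x ∈ cell d m β → ∀ k,
      ((α k : ℕ) : ℝ) < (β k : ℕ) + 1 := by
    intro α β hα hβ k
    have h1 := (hα k).1
    have h2 := (hβ k).2
    have h3 : ((α k : ℕ) : ℝ) / m < ((β k : ℕ) : ℝ) / m + 1 / m := lt_of_le_of_lt h1 h2
    rw [← add_div] at h3
    exact (div_lt_div_iff_of_pos_right hm0).mp h3
  funext k
  apply Fin.ext
  have h1 := key α β hα hβ k
  have h2 := key β α hβ hα k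
  have h1' : (α k : ℕ) < (β k : ℕ) + 1 := by exact_mod_cast h1
  have h2' : (β k : ℕ) < (α k : ℕ) + 1 := by exact_mod_cast h2
  omega

theorem cell_disj {d m : ℕ} (hm : 1 ≤ m) {α β : Fin d → Fin m} (h : α ≠ β) :
    Disjoint (cell d m α) (cell d m β) :=
  Set.disjoint_left.mpr fun _ hα hβ => h (cell_uniq hm hα hβ)

theorem cell_cover {d m : ℕ} (hm : 1 ≤ m) : (⋃ α, cell d m α) = box (fun _ => 0) 1 := by
  have hm0 : (0:ℝ) < m := by exact_mod_cast hm
  ext x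
  simp only [Set.mem_iUnion]
  constructor
  · rintro ⟨α, hα⟩ k
    have h1 := hα k
    have h2 : (0:ℝ) ≤ ((α k : ℕ) : ℝ) / m := by positivity
    refine ⟨h2.trans h1.1, lt_of_lt_of_le h1.2 ?_⟩
    have h3 : ((α k : ℕ) : ℝ) + 1 ≤ m := by exact_mod_cast (α k).isLt
    change ((α k : ℕ) : ℝ) / m + 1 / m ≤ 0 + 1
    rw [← add_div, zero_add, div_le_one hm0]
    exact h3
  · intro hx
    have h1 : ∀ k, ⌊x k * m⌋₊ < m := by
      intro k
      have h2 := hx k
      rw [Nat.floor_lt (mul_nonneg h2.1 hm0.le)]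
      have h3 : x k < 1 := by simpa using h2.2
      calc x k * m < 1 * m := mul_lt_mul_of_pos_right h3 hm0
        _ = m := one_mul _
    refine ⟨fun k => ⟨⌊x k * m⌋₊, h1 k⟩, fun k => ?_⟩
    have h2 := hx k
    constructor
    · change ((⌊x k * m⌋₊ : ℕ) : ℝ) / m ≤ x k
      rw [div_le_iff₀ hm0]
      exact Nat.floor_le (mul_nonneg h2.1 hm0.le)
    · change x k < ((⌊x k * m⌋₊ : ℕ) : ℝ) / m + 1 / m
      rw [← add_div, lt_div_iff₀ hm0]
      exact Nat.lt_floor_add_one _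

theorem gd_ae (d : ℕ) : (Gd d : Set (Ed d)) =ᵐ[volume] (box (fun _ => 0) 1 : Set (Ed d)) := by
  have h1 : (Set.univ.pi fun _ : Fin d => Set.Ico (0:ℝ) 1) =ᵐ[volume]
      Set.Icc (fun _ : Fin d => (0:ℝ)) fun _ => 1 :=
    Measure.univ_pi_Ico_ae_eq_Icc
  have h2 := (PiLp.volume_preserving_ofLp (Fin d)).quasiMeasurePreserving.preimage_ae_eq h1
  have e1 : (@WithLp.ofLp 2 (Fin d → ℝ)) ⁻¹' (Set.univ.pi fun _ : Fin d => Set.Ico (0:ℝ) 1) =
      box (fun _ => 0) 1 := by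
    rw [box_eq]
    simp
  have e2 : (@WithLp.ofLp 2 (Fin d → ℝ)) ⁻¹' (Set.Icc (fun _ : Fin d => (0:ℝ)) fun _ => 1) =
      Gd d := by
    ext x
    simp only [Set.mem_preimage, Set.mem_Icc, Pi.le_def, Gd, Set.mem_ofPred_eq]
    exact ⟨fun h k => ⟨h.1 k, h.2 k⟩, fun h => ⟨fun k => (h k).1, fun k => (h k).2⟩⟩
  rw [e1, e2] at h2
  exact h2.symm

/-! ## the projection -/

/-- normalised indicators of the cells -/
def wv (d m : ℕ) (α : Fin d → Fin m) : L2d d :=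
  ((Real.sqrt ((m : ℝ) ^ d) : ℝ) : ℂ) •
    indicatorConstLp 2 (cell_meas d m α) (cell_ne d m α) (1 : ℂ)

theorem wv_inner (d m : ℕ) (α : Fin d → Fin m) (u : L2d d) :
    ⟪wv d m α, u⟫_ℂ = ((Real.sqrt ((m : ℝ) ^ d) : ℝ) : ℂ) * ∫ x in cell d m α, u x := by
  rw [wv, inner_smul_left, Complex.conj_ofReal, L2.inner_indicatorConstLp_one]

theorem wv_orth (d m : ℕ) (hm : 1 ≤ m) : Orthonormal ℂ (wv d m) := by
  classical
  have hm0 : (0:ℝ) < m := by exact_mod_cast hm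
  rw [orthonormal_iff_ite]
  intro α β
  have h1 : ⟪wv d m α, wv d m β⟫_ℂ = ((Real.sqrt ((m : ℝ) ^ d) : ℝ) : ℂ) *
      (((Real.sqrt ((m : ℝ) ^ d) : ℝ) : ℂ) * (volume.real (cell d m α ∩ cell d m β) : ℝ)) := by
    rw [wv, wv, inner_smul_left, inner_smul_right, Complex.conj_ofReal,
      L2.inner_indicatorConstLp_indicatorConstLp (cell_meas d m α) (cell_meas d m β)
        (cell_ne d m α) (cell_ne d m β)]
    simp
  rw [h1]
  split_ifs with h
  · rw [← h, Set.inter_self, cell_real d m hm, ← mul_assoc, ← Complex.ofReal_mul,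
      Real.mul_self_sqrt (by positivity), ← Complex.ofReal_mul,
      mul_inv_cancel₀ (by positivity), Complex.ofReal_one]
  · rw [Set.disjoint_iff_inter_eq_empty.mp (cell_disj hm h)]
    simp

theorem star_add' {d : ℕ} (a b : L2d d) : star (a + b) = star a + star b := by
  apply Lp.ext
  filter_upwards [Lp.coeFn_star (a + b), Lp.coeFn_add a b, Lp.coeFn_add (star a) (star b),
    Lp.coeFn_star a, Lp.coeFn_star b] with x h1 h2 h3 h4 h5
  rw [h1, h3, Pi.star_apply, h2, Pi.add_apply, Pi.add_apply, h4, h5, star_add]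
  rfl

theorem star_smul' {d : ℕ} (c : ℂ) (a : L2d d) : star (c • a) = (starRingEnd ℂ) c • star a := by
  apply Lp.ext
  filter_upwards [Lp.coeFn_star (c • a), Lp.coeFn_smul c a, Lp.coeFn_smul (star c) (star a),
    Lp.coeFn_star a] with x h1 h2 h3 h4
  rw [h1, Pi.star_apply, h2, Pi.smul_apply, star_smul]
  have h5 : ((starRingEnd ℂ) c • star a : L2d d) x = star c • (star a : L2d d) x := h3
  rw [h5, h4]
  rfl

theorem star_zero' {d : ℕ} : star (0 : L2d d) = 0 := by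
  have := star_smul' (0 : ℂ) (0 : L2d d)
  simpa using this

theorem star_sum' {d : ℕ} {ι : Type} (s : Finset ι) (f : ι → L2d d) :
    star (∑ i ∈ s, f i) = ∑ i ∈ s, star (f i) := by
  classical
  induction s using Finset.induction_on with
  | empty => simp [star_zero']
  | insert a s ha ih => rw [Finset.sum_insert ha, Finset.sum_insert ha, star_add', ih]

theorem wv_star (d m : ℕ) (α : Fin d → Fin m) : star (wv d m α) = wv d m α := by
  rw [wv, star_smul', Complex.conj_ofReal]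
  congr 1
  apply Lp.ext
  filter_upwards [Lp.coeFn_star (indicatorConstLp 2 (cell_meas d m α) (cell_ne d m α) (1 : ℂ)),
    indicatorConstLp_coeFn (p := 2) (hs := cell_meas d m α) (hμs := cell_ne d m α) (c := (1:ℂ))]
    with x h1 h2
  rw [h1, Pi.star_apply, h2]
  by_cases hx : x ∈ cell d m α
  · rw [Set.indicator_of_mem hx]
    simp
  · rw [Set.indicator_of_notMem hx]
    simp

theorem wv_inner_star (d m : ℕ) (α : Fin d → Fin m) (u : L2d d) :
    ⟪wv d m α, star u⟫_ℂ = (starRingEnd ℂ) ⟪wv d m α, u⟫_ℂ := by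
  rw [wv_inner, wv_inner, map_mul, Complex.conj_ofReal, ← integral_conj]
  congr 1
  refine integral_congr_ae ?_
  filter_upwards [ae_restrict_of_ae (Lp.coeFn_star u)] with x hx
  rw [hx]
  rfl

theorem QQ_conj (d m : ℕ) (u : L2d d) : QQ (wv d m) (star u) = star (QQ (wv d m) u) := by
  rw [QQ_apply, QQ_apply, star_sum']
  refine Finset.sum_congr rfl fun α _ => ?_
  rw [star_smul', wv_star, wv_inner_star]

/-! ## the inequality for Schwartz functions -/

theorem clm_bound {d : ℕ} (L : Ed d →L[ℝ] ℂ) : ‖L‖ ^ 2 ≤ ∑ k, ‖L (ev k)‖ ^ 2 := by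
  have h0 : 0 ≤ ∑ k, ‖L (ev k)‖ ^ 2 := Finset.sum_nonneg fun k _ => sq_nonneg _
  have h1 : ‖L‖ ≤ Real.sqrt (∑ k, ‖L (ev k)‖ ^ 2) := by
    refine ContinuousLinearMap.opNorm_le_bound _ (Real.sqrt_nonneg _) fun v => ?_
    have h2 : L v = ∑ k, v k • L (ev k) := by
      have h3 : v = ∑ k, v k • (ev k : Ed d) := by
        ext j
        simp [ev, WithLp.ofLp_sum, Finset.sum_apply, Pi.single_apply]
      conv_lhs => rw [h3]
      rw [map_sum]
      simp only [map_smul]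
    rw [h2]
    have h4 : ‖∑ k, v k • L (ev k)‖ ≤ ∑ k, ‖v k‖ * ‖L (ev k)‖ := by
      refine (norm_sum_le _ _).trans (Finset.sum_le_sum fun k _ => ?_)
      rw [norm_smul]
    refine h4.trans ?_
    have h5 := Real.sum_mul_le_sqrt_mul_sqrt Finset.univ (fun k => ‖v k‖) fun k => ‖L (ev k)‖
    refine h5.trans ?_
    rw [mul_comm, EuclideanSpace.norm_eq v]
  calc ‖L‖ ^ 2 ≤ (Real.sqrt (∑ k, ‖L (ev k)‖ ^ 2)) ^ 2 := pow_le_pow_left₀ (norm_nonneg _) h1 2
    _ = _ := Real.sq_sqrt h0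

theorem norm_sq_L2 {d : ℕ} (u : L2d d) : ‖u‖ ^ 2 = ∫ x, ‖u x‖ ^ 2 := by
  rw [← inner_self_eq_norm_sq (𝕜 := ℂ) u, L2.inner_def]
  have h : ∀ x, ⟪u x, u x⟫_ℂ = ((‖u x‖ ^ 2 : ℝ) : ℂ) := by
    intro x
    rw [inner_self_eq_norm_sq_to_K]
    norm_cast
  simp only [h]
  rw [integral_complex_ofReal]
  exact Complex.ofReal_re _

theorem intOn_sq {d : ℕ} (u : L2d d) (S : Set (Ed d)) :
    IntegrableOn (fun x => ‖u x‖ ^ 2) S := by
  have h : Integrable (fun x => ‖u x‖ ^ 2) volume := (Lp.memLp u).integrable_norm_pow (by norm_num)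
  exact h.integrableOn

/-- the derivative as a Schwartz function -/
theorem deriv_schwartz {d : ℕ} (φ : 𝓢(Ed d, ℂ)) (k : Fin d) :
    ∃ ψ : 𝓢(Ed d, ℂ), ∀ x, ψ x = fderiv ℝ (fun y => φ y) x (ev k) :=
  ⟨LineDeriv.lineDerivOp (ev k) φ, fun x => SchwartzMap.lineDerivOp_apply_eq_fderiv (ev k) φ x⟩

theorem sch_cell {d : ℕ} (a : Fin d → ℝ) (s : ℝ) (hs : 0 < s) (φ : 𝓢(Ed d, ℂ)) :
    ∫ x in box a s, ‖φ x‖ ^ 2 ≤ (s ^ d)⁻¹ * ‖∫ x in box a s, φ x‖ ^ 2 +
      d * 2 ^ d * s ^ 2 * ∫ x in box a s, ∑ k, ‖fderiv ℝ (fun y => φ y) x (ev k)‖ ^ 2 := by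
  have i2 : ∀ ψ : 𝓢(Ed d, ℂ), Integrable (fun x => ‖ψ x‖ ^ 2) volume := fun ψ =>
    (ψ.memLp 2 volume).integrable_norm_pow (by norm_num)
  have i3 : Integrable (fun x => ∑ k, ‖fderiv ℝ (fun y => φ y) x (ev k)‖ ^ 2) volume := by
    refine integrable_finsetSum _ fun k _ => ?_
    obtain ⟨ψ, hψ⟩ := deriv_schwartz φ k
    simp only [← hψ]
    exact i2 ψ
  have hc : ContDiff ℝ 1 (fun y => φ y) := φ.smooth 1
  have i4 : Integrable (fun x => ‖fderiv ℝ (fun y => φ y) x‖ ^ 2) volume := by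
    refine i3.mono' ((hc.continuous_fderiv one_ne_zero).norm.pow 2).aestronglyMeasurable ?_
    refine Filter.Eventually.of_forall fun x => ?_
    rw [Real.norm_eq_abs, abs_of_nonneg (sq_nonneg _)]
    exact clm_bound _
  have h := poinc a s hs (fun y => φ y) hc φ.integrable.integrableOn (i2 φ).integrableOn
    i4.integrableOn
  refine h.trans ?_
  have h2 : ∫ x in box a s, ‖fderiv ℝ (fun y => φ y) x‖ ^ 2 ≤
      ∫ x in box a s, ∑ k, ‖fderiv ℝ (fun y => φ y) x (ev k)‖ ^ 2 :=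
    integral_mono i4.integrableOn i3.integrableOn fun x => clm_bound _
  have h3 : (0:ℝ) ≤ d * 2 ^ d * s ^ 2 := by positivity
  nlinarith [mul_le_mul_of_nonneg_left h2 h3]

theorem sch_glob {d m : ℕ} (hm : 1 ≤ m) (φ : 𝓢(Ed d, ℂ)) :
    ∫ x in Gd d, ‖φ x‖ ^ 2 ≤ (∑ α, ‖⟪wv d m α, φ.toLp 2 volume⟫_ℂ‖ ^ 2) +
      d * 2 ^ d / m ^ 2 * ∫ x, ∑ k, ‖fderiv ℝ (fun y => φ y) x (ev k)‖ ^ 2 := by
  have hm0 : (0:ℝ) < m := by exact_mod_cast hm
  have i2 : ∀ ψ : 𝓢(Ed d, ℂ), Integrable (fun x => ‖ψ x‖ ^ 2) volume := fun ψ =>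
    (ψ.memLp 2 volume).integrable_norm_pow (by norm_num)
  have i3 : Integrable (fun x => ∑ k, ‖fderiv ℝ (fun y => φ y) x (ev k)‖ ^ 2) volume := by
    refine integrable_finsetSum _ fun k _ => ?_
    obtain ⟨ψ, hψ⟩ := deriv_schwartz φ k
    simp only [← hψ]
    exact i2 ψ
  have hd : Pairwise (Function.onFun Disjoint fun α => cell d m α) := fun α β h => cell_disj hm h
  have e1 : ∫ x in Gd d, ‖φ x‖ ^ 2 = ∑ α, ∫ x in cell d m α, ‖φ x‖ ^ 2 := by
    rw [setIntegral_congr_set (gd_ae d), ← cell_cover hm,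
      integral_iUnion_fintype (cell_meas d m) hd fun α => (i2 φ).integrableOn]
  have e2 : ∑ α, ∫ x in cell d m α, ∑ k, ‖fderiv ℝ (fun y => φ y) x (ev k)‖ ^ 2 ≤
      ∫ x, ∑ k, ‖fderiv ℝ (fun y => φ y) x (ev k)‖ ^ 2 := by
    rw [← integral_iUnion_fintype (cell_meas d m) hd fun α => i3.integrableOn]
    refine setIntegral_le_integral i3 ?_
    exact Filter.Eventually.of_forall fun x => Finset.sum_nonneg fun k _ => sq_nonneg _
  have e3 : ∀ α, ∫ x in cell d m α, ‖φ x‖ ^ 2 ≤ ‖⟪wv d m α, φ.toLp 2 volume⟫_ℂ‖ ^ 2 +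
      d * 2 ^ d / m ^ 2 * ∫ x in cell d m α, ∑ k, ‖fderiv ℝ (fun y => φ y) x (ev k)‖ ^ 2 := by
    intro α
    have h1 := sch_cell (fun k => ((α k : ℕ) : ℝ) / m) (1 / m) (by positivity) φ
    have h2 : ∫ x in cell d m α, (φ.toLp 2 volume : L2d d) x = ∫ x in cell d m α, φ x := by
      refine integral_congr_ae ?_
      filter_upwards [ae_restrict_of_ae (φ.coeFn_toLp 2 volume)] with x hx
      exact hx
    rw [wv_inner, h2, norm_mul, mul_pow, Complex.norm_real, Real.norm_eq_abs, sq_abs,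
      Real.sq_sqrt (by positivity)]
    have h3 : (((1:ℝ) / m) ^ d)⁻¹ = (m:ℝ) ^ d := by
      rw [one_div, inv_pow, inv_inv]
    have h4 : (d:ℝ) * 2 ^ d * (1 / m) ^ 2 = d * 2 ^ d / m ^ 2 := by
      field_simp
    rw [h3, h4] at h1
    exact h1
  rw [e1]
  refine (Finset.sum_le_sum fun α _ => e3 α).trans ?_
  rw [Finset.sum_add_distrib, ← Finset.mul_sum]
  have h5 : (0:ℝ) ≤ d * 2 ^ d / m ^ 2 := by positivity
  linarith [mul_le_mul_of_nonneg_left e2 h5]

/-- restriction to the cube -/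
def RR (d : ℕ) : L2d d →L[ℂ] Lp ℂ 2 (volume.restrict (Gd d)) :=
  LpToLpRestrictCLM (Ed d) ℂ ℂ volume 2 (Gd d)

theorem RR_norm {d : ℕ} (u : L2d d) : ‖RR d u‖ ^ 2 = ∫ x in Gd d, ‖u x‖ ^ 2 := by
  rw [← inner_self_eq_norm_sq (𝕜 := ℂ) (RR d u), L2.inner_def]
  have h : ∀ x, ⟪(RR d u) x, (RR d u) x⟫_ℂ = ((‖(RR d u) x‖ ^ 2 : ℝ) : ℂ) := by
    intro x
    rw [inner_self_eq_norm_sq_to_K]
    norm_cast
  simp only [h]
  rw [integral_complex_ofReal]
  refine (Complex.ofReal_re _).trans ?_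
  refine integral_congr_ae ?_
  filter_upwards [LpToLpRestrictCLM_coeFn (F := ℂ) (p := 2) ℂ (Gd d) u] with x hx
  have hx' : (RR d u) x = u x := hx
  rw [hx']

theorem dist_sch {d : ℕ} (u : L2d d) (φ : 𝓢(Ed d, ℂ)) (F : Ed d → ℂ) (hF : ∀ x, φ x = F x)
    (ε : ℝ) (hε : 0 < ε) (h : ∫ x, ‖u x - F x‖ ^ 2 < ε ^ 2) :
    dist u (φ.toLp 2 volume) < ε := by
  rw [dist_eq_norm]
  have h1 : ‖u - φ.toLp 2 volume‖ ^ 2 < ε ^ 2 := by
    rw [norm_sq_L2]
    refine lt_of_le_of_lt (le_of_eq ?_) h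
    refine integral_congr_ae ?_
    filter_upwards [Lp.coeFn_sub u (φ.toLp 2 volume), φ.coeFn_toLp 2 volume] with x h1 h2
    rw [h1, Pi.sub_apply, h2, hF]
  exact lt_of_pow_lt_pow_left₀ 2 hε.le h1

theorem poi : S_DEN → S_POI := by
  intro hden d hd
  have hd0 : (0:ℝ) < d := by exact_mod_cast hd
  refine ⟨d * 2 ^ d, by positivity, fun m hm => ?_⟩
  have hm0 : (0:ℝ) < m := by exact_mod_cast hm
  have ho := wv_orth d m hm
  refine ⟨QQ (wv d m), QQ_sa _, QQ_idem _ ho, QQ_conj d m, QQ_fin _, ?_, ?_⟩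
  · refine (QQ_rank _).trans (le_of_eq ?_)
    simp
  intro u g hug
  set S : Set (L2d d × (Fin d → L2d d)) := {p | ‖RR d p.1‖ ^ 2 ≤
    ‖QQ (wv d m) p.1‖ ^ 2 + d * 2 ^ d / m ^ 2 * ∑ k, ‖p.2 k‖ ^ 2} with hS
  have hcl : IsClosed S := by
    refine isClosed_le ?_ ?_
    · exact (((RR d).continuous.comp continuous_fst).norm).pow 2
    · refine Continuous.add ?_ ?_
      · exact (((QQ (wv d m)).continuous.comp continuous_fst).norm).pow 2
      · refine Continuous.mul continuous_const ?_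
        refine continuous_finsetSum _ fun k _ => ?_
        exact (((continuous_apply k).comp continuous_snd).norm).pow 2
  have hmem : (u, g) ∈ closure S := by
    rw [Metric.mem_closure_iff]
    intro ε hε
    obtain ⟨φ, h1, h2⟩ := hden d u g (ε ^ 2) (by positivity) hug
    choose ψ hψ using fun k => deriv_schwartz φ k
    refine ⟨(φ.toLp 2 volume, fun k => (ψ k).toLp 2 volume), ?_, ?_⟩
    · change ‖RR d (φ.toLp 2 volume)‖ ^ 2 ≤ ‖QQ (wv d m) (φ.toLp 2 volume)‖ ^ 2 +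
        d * 2 ^ d / m ^ 2 * ∑ k, ‖(ψ k).toLp 2 volume‖ ^ 2
      rw [RR_norm, QQ_norm _ ho]
      have e1 : ∫ x in Gd d, ‖(φ.toLp 2 volume : L2d d) x‖ ^ 2 = ∫ x in Gd d, ‖φ x‖ ^ 2 := by
        refine integral_congr_ae ?_
        filter_upwards [ae_restrict_of_ae (φ.coeFn_toLp 2 volume)] with x hx
        rw [hx]
      have e2 : ∑ k, ‖(ψ k).toLp 2 volume‖ ^ 2 =
          ∫ x, ∑ k, ‖fderiv ℝ (fun y => φ y) x (ev k)‖ ^ 2 := by
        rw [integral_finsetSum]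
        · refine Finset.sum_congr rfl fun k _ => ?_
          rw [norm_sq_L2]
          refine integral_congr_ae ?_
          filter_upwards [(ψ k).coeFn_toLp 2 volume] with x hx
          rw [hx, hψ]
        · intro k _
          simp only [← hψ]
          exact ((ψ k).memLp 2 volume).integrable_norm_pow (by norm_num)
      rw [e1, e2]
      exact sch_glob hm φ
    · rw [Prod.dist_eq, max_lt_iff]
      constructor
      · exact dist_sch u φ _ (fun _ => rfl) ε hε h1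
      · rw [dist_pi_lt_iff hε]
        intro k
        exact dist_sch (g k) (ψ k) _ (hψ k) ε hε (h2 k)
  rw [hcl.closure_eq] at hmem
  have h := hmem
  rw [hS] at h
  change ‖RR d u‖ ^ 2 ≤ ‖QQ (wv d m) u‖ ^ 2 + d * 2 ^ d / m ^ 2 * ∑ k, ‖g k‖ ^ 2 at h
  rw [RR_norm] at h
  exact h

end

end Pool.Agent.W797.CP
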